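import Pool.Agent.PrettyBase.Main

/-!
# A Tychonoff space with a cocompact pretty base that is not a k-space

The definitions are in `Pool/Agent/PrettyBase/Defs.lean`, the construction and the proof in
`Pool/Agent/PrettyBase/Main.lean`.
-/

set_option autoImplicit false

namespace Pool.Agent.Results.MP_31ff53_gt.NotKSpace

open Pool.Agent.PrettyBase

/-- There is a Tychonoff space that has a cocompact pretty base and is not a k-space. -/
theorem result : ∃ (X : Type) (_ : TopologicalSpace X), T35Space X ∧
    (∃ H : Set (X → Fin 2), IsPretty X H ∧ IsCocompact (baseOf H)) ∧ ¬ IsKSpace X :=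
  main

end Pool.Agent.Results.MP_31ff53_gt.NotKSpace
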